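import Pool.Agent.Y208.BH.Stm
import Pool.Agent.TH74.Oligo.Pres

/-!
# BH-TYA: the group acting on the indices
-/

set_option autoImplicit false

namespace Pool.Agent.Y319.BH

open Y208.BH Pool.Agent.TH74.Oligo

/-- positive integers -/
def dn (n : ℕ) : Dy := ⟨(n : ℚ) + 1, by positivity, 0, (n : ℤ) + 1, by push_cast; ring⟩

lemma dn_val (n : ℕ) : ((dn n : Dy) : ℚ) = n + 1 := rfl

lemma dn_inj : Function.Injective dn := by
  intro a b h
  have h1 := congrArg (fun t : Dy => (t : ℚ)) h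
  simp only [dn_val] at h1
  exact_mod_cast add_right_cancel h1

/-- translation by one -/
def sh (t : Dy) : Dy := ⟨(t : ℚ) + 1, by have := t.2.1; linarith, by
  obtain ⟨k, m, h⟩ := t.2.2
  exact ⟨k, m + 2 ^ k, by push_cast; rw [mul_add, h, mul_one]⟩⟩

theorem t_TYA : S_TF1 → S_TF2 → S_TF3 → S_TF4 → S_TF5 → S_TYA := by
  classical
  intro h1 h2 h3 h4 h5
  obtain ⟨G, hG, X, hfp, hrel, hgen, huniv⟩ := h1
  obtain ⟨X', hrel', hact'⟩ := h2
  obtain ⟨π, hπ⟩ := huniv (Equiv.Perm Dy) X' hrel'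
  letI : MulAction G Dy := MulAction.compHom Dy π
  have hsm : ∀ (g : G) (t : Dy), g • t = π g t := fun g t => rfl
  have hT : TAct G X := ⟨hrel, hgen, fun n t => by
    rw [hsm, hπ]
    exact hact' n t⟩
  have h3' := h3 G X hT
  have h4' := h4 G X hT
  have h5' := h5 G X hT
  have hinfDy : Infinite Dy := Infinite.of_injective dn dn_inj
  -- pairs
  have hpair : ∀ x y : Dy, ∃ g : G, ∃ p ∈ ({(dn 0, dn 1), (dn 1, dn 0), (dn 0, dn 0)} :
      Finset (Dy × Dy)), g • p.1 = x ∧ g • p.2 = y := by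
    have h01 : ((dn 0 : Dy) : ℚ) < dn 1 := by
      rw [dn_val, dn_val]
      norm_num
    intro x y
    rcases lt_trichotomy (x : ℚ) (y : ℚ) with h | h | h
    · obtain ⟨g, hg1, hg2⟩ := h5' (dn 0) (dn 1) x y h01 h
      exact ⟨g, (dn 0, dn 1), by simp, hg1, hg2⟩
    · have hxy : x = y := Subtype.ext h
      subst hxy
      obtain ⟨g, hg1, hg2⟩ := h5' (dn 0) (dn 1) x (sh x) h01 (by
        change (x : ℚ) < (x : ℚ) + 1
        linarith)
      exact ⟨g, (dn 0, dn 0), by simp, hg1, hg1⟩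
    · obtain ⟨g, hg1, hg2⟩ := h5' (dn 0) (dn 1) y x h01 h
      exact ⟨g, (dn 1, dn 0), by simp, hg2, hg1⟩
  letI act : MulAction (G × G) (Dy × Dy) :=
    { smul := fun g x => (g.1 • x.1, g.2 • x.2)
      one_smul := fun x => Prod.ext (one_smul G x.1) (one_smul G x.2)
      mul_smul := fun g k x => Prod.ext (mul_smul g.1 k.1 x.1) (mul_smul g.2 k.2 x.2) }
  have hsmul : ∀ (g : G × G) (x : Dy × Dy), g • x = (g.1 • x.1, g.2 • x.2) := fun g x => rfl
  have hGfg : Group.FG G := by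
    obtain ⟨n, ψ, hψ, -⟩ := hfp
    exact Group.fg_of_surjective hψ
  obtain ⟨A, hA⟩ := hGfg.out
  have hfp' : Group.IsFinitelyPresented (G × G) :=
    fp_prod G G A A.finite_toSet hA A A.finite_toSet hA
  refine ⟨G × G, Dy × Dy, inferInstance, act, ⟨hfp', inferInstance, ?_, ?_, ?_⟩⟩
  · set E0 : Finset (Dy × Dy) := {(dn 0, dn 1), (dn 1, dn 0), (dn 0, dn 0)} with hE0
    refine ⟨(E0 ×ˢ E0).image (fun q => ((q.1.1, q.2.1), (q.1.2, q.2.2))), ?_⟩
    rintro ⟨x1, x2⟩ ⟨y1, y2⟩
    obtain ⟨g, p, hp, hg1, hg2⟩ := hpair x1 y1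
    obtain ⟨k, q, hq, hk1, hk2⟩ := hpair x2 y2
    refine ⟨(g, k), ((p.1, q.1), (p.2, q.2)), ?_, ?_, ?_⟩
    · exact Finset.mem_image.2 ⟨(p, q), Finset.mem_product.2 ⟨hp, hq⟩, rfl⟩
    · rw [hsmul, ← hg1, ← hk1]
    · rw [hsmul, ← hg2, ← hk2]
  · intro s
    have hs : MulAction.stabilizer (G × G) s =
        (MulAction.stabilizer G s.1).prod (MulAction.stabilizer G s.2) := by
      ext g
      rw [MulAction.mem_stabilizer_iff, hsmul, Subgroup.mem_prod, MulAction.mem_stabilizer_iff,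
        MulAction.mem_stabilizer_iff, Prod.ext_iff]
    rw [hs]
    exact (h4' s.1).prod (h4' s.2)
  · rintro ⟨g, k⟩ hne
    have hcase : g ≠ 1 ∨ k ≠ 1 := by
      by_contra hcon
      push Not at hcon
      exact hne (by rw [hcon.1, hcon.2]; rfl)
    rcases hcase with hg | hk
    · obtain ⟨s, hs⟩ : ∃ s : Dy, g • s ≠ s := by
        by_contra hcon
        push Not at hcon
        exact hg (h3' g hcon)
      apply Set.infinite_of_injective_forall_mem (f := fun t : Dy => (s, t))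
      · intro t t' h
        simpa using h
      · intro t h
        rw [hsmul, Prod.mk.injEq] at h
        exact hs h.1
    · obtain ⟨s, hs⟩ : ∃ s : Dy, k • s ≠ s := by
        by_contra hcon
        push Not at hcon
        exact hk (h3' k hcon)
      apply Set.infinite_of_injective_forall_mem (f := fun t : Dy => (t, s))
      · intro t t' h
        simpa using h
      · intro t h
        rw [hsmul, Prod.mk.injEq] at h
        exact hs h.2

end Pool.Agent.Y319.BH
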